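import Pool.Agent.P.MP_6149fc_ag.All

namespace Pool.Agent.Results.MP_6149fc_ag.CompleteIntersections

open MvPolynomial Pool.Agent.P.MP_6149fc_ag

/-- A smooth complete intersection `X = {F = 0}` of dimension `n` in `ℙ^(n+r)` of multidegree
`d` with all `d s ≥ 2`, Fano index one (`∑ d s = n + r`, so that `-K_X = O(1)`), and degree at
most `(n + 1) 2 ^ (min r ⌈n / 2⌉ - 1)` satisfies `S(E) ≤ A(E)` for every prime divisor `E` over
`X`. -/
theorem result (n r : ℕ) (d : Fin r → ℕ) (F : Fin r → MvPolynomial (Fin (n + r + 1)) ℂ)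
    (hn : 1 ≤ n) (hd : ∀ s, 2 ≤ d s) (hF : ∀ s, (F s).IsHomogeneous (d s))
    (_hsum : ∑ s, d s = n + r) (_hprime : (Ideal.span (Set.range F)).IsPrime)
    (hsmooth : Nonsingular F)
    (hdeg : ∏ s, d s ≤ (n + 1) * 2 ^ (min r ((n + 1) / 2) - 1)) :
    ValuativeCriterion n (Ideal.span (Set.range F)) := by
  obtain ⟨m, rfl⟩ : ∃ m, n = m + 1 := ⟨n - 1, by omega⟩
  exact main t_NULL t_TRB t_GEOM t_INIT t_POW t_HILB t_VAL t_INDEP t_CONV _ m r d F
    (Fintype.card_fin _) hd hF hsmooth hdeg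

end Pool.Agent.Results.MP_6149fc_ag.CompleteIntersections
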