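import Pool.Agent.P.MP_6149fc_ag.V18.All

namespace Pool.Agent.Results.MP_6149fc_ag.GenusTen

open Pool.Agent.P.MP_6149fc_ag Pool.Agent.P.MP_6149fc_ag.V18

/-- Every smooth linear section `X` of codimension two of the adjoint variety of `G₂` in
`Gr(2, 7)` (a prime Fano threefold of genus ten, `-K_X = O(1)`) satisfies `S(E) ≤ A(E)` for
every prime divisor `E` over `X`. -/
theorem result (l : Fin 2 → Fin 7 × Fin 7 → ℂ) (h : SmoothOfDim 3 (equations l)) :
    ValuativeCriterion 3 (Ideal.span (equations l)).radical :=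
  t_MAIN l h

end Pool.Agent.Results.MP_6149fc_ag.GenusTen
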