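import Pool.Agent.P.MP_6149fc_ag.V22.All

namespace Pool.Agent.Results.MP_6149fc_ag.GenusTwelve

open Pool.Agent.P.MP_6149fc_ag

/-- Every smooth threefold `X` of three dimensional subspaces of `ℂ⁷` that are isotropic for
three alternating forms (a prime Fano threefold of genus twelve, `-K_X = O(1)`) satisfies
`S(E) ≤ A(E)` for every prime divisor `E` over `X`. -/
theorem result (w : Fin 3 → Fin 7 → Fin 7 → ℂ) (h : V18.SmoothOfDim 3 (V22.equations w)) :
    ValuativeCriterion 3 (Ideal.span (V22.equations w)).radical :=
  V22.t_MAINV w h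

end Pool.Agent.Results.MP_6149fc_ag.GenusTwelve
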